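import Mathlib
import Pool.Agent.H286R3.DualDefs
import Pool.Agent.H286R3.Fin1

/-!
# The dual variety of a reciprocal linear space

For linear forms `ℓ 0, …, ℓ n` on `ℂ^{d+1}` spanning its dual whose matroid is connected, the dual
variety of the reciprocal linear space `L^{-1}` is a hypersurface of degree `2 ^ d * β(L)`.
-/

namespace Pool.Agent.Results.MP_0aec2a_ag.DualDegree

open Pool.Agent.H286R3 Module

/-- Full positive answer to Q1 of MP_0aec2a_ag. If the matroid of `ℓ` is connected, then the dual
variety of `L^{-1}` is the zero set of one irreducible homogeneous polynomial `F` whose degree is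
`2 ^ d` times the beta invariant; for `n ≥ 1` the vanishing ideal of the dual variety is generated
by `F`, so that this is the degree of the reduced hypersurface. The last clause records that the
smooth points used in the definition of the dual variety are exactly the points of `L^{-1}` whose
embedded tangent space has (linear) dimension `d + 1`. -/
theorem result (n d : ℕ) (ℓ : Fin (n + 1) → Dual ℂ (Fin (d + 1) → ℂ))
    (hspan : Submodule.span ℂ (Set.range ℓ) = ⊤) (hconn : IsConnectedMatroid ℓ) :
    ∃ F : MvPolynomial (Fin (n + 1)) ℂ, Irreducible F ∧ F.IsHomogeneous F.totalDegree ∧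
      (F.totalDegree : ℤ) = 2 ^ d * betaInv ℓ ∧
      dualVariety (reciprocalSpace ℓ) = zeroSet {F} ∧
      (0 < n → vanIdeal (dualVariety (reciprocalSpace ℓ)) = Ideal.span {F}) ∧
      ∀ p, IsSmoothPoint (reciprocalSpace ℓ) p ↔ p ∈ reciprocalSpace ℓ ∧
        finrank ℂ (tangentSpace (reciprocalSpace ℓ) p) = d + 1 :=
  main_thm ℓ hspan hconn

end Pool.Agent.Results.MP_0aec2a_ag.DualDegree
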